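import Pool.Agent.H964R2.Disc.Exist

/-!
For all `n ≥ 2` and `d ≥ 3` the smallest positive integer `p` such that the product of the `p`-th
power of the discriminant and the associated form extends to all forms of degree `d` in `n`
variables is `p = 1`.
-/

namespace Pool.Agent.Results.MP_2a8a61_ag.ExponentOne

open Pool.Agent.Helper56.Disc

/-- For all `n ≥ 2` and `d ≥ 3` a discriminant `Δ` of the forms of degree `d` in `n` variables
exists, and for every discriminant `Δ` the smallest positive integer `p` such that `Δ ^ p Φ`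
extends to a morphism from all the forms of degree `d` to the forms of degree `n (d - 2)` is
`p = 1`. -/
theorem result (n d : ℕ) (hn : 2 ≤ n) (hd : 3 ≤ d) :
    (∃ Δ : MvPolynomial (Mon n d) ℂ, IsDiscriminant Δ) ∧
      ∀ Δ : MvPolynomial (Mon n d) ℂ, IsDiscriminant Δ →
        IsLeast {p : ℕ | 0 < p ∧ PowerExtends Δ p} 1 :=
  ⟨Pool.Agent.H964R2.Disc.exists_discriminant hn hd, fun Δ hΔ =>
    ⟨⟨one_pos, Pool.Agent.H964R2.Disc.powerExtends hn hd Δ hΔ⟩, fun _ hp => hp.1⟩⟩

end Pool.Agent.Results.MP_2a8a61_ag.ExponentOne
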